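import Pool.Agent.H90.PT.Big
import Pool.Agent.H90.PT.Odd
import Pool.Agent.H90.DE.Sixteen
import Pool.Agent.H62.DE32

/-!
# D-type latin squares whose square is latin: all prime powers `n ≥ 9` (MP_2f0703_co)
-/

set_option autoImplicit false

namespace Pool.Agent.Results.MP_2f0703_co.AllPrimePowers

/-- `L i` is the row `i`, a permutation of the symbols; the array is a latin square if no column repeats a symbol -/
def IsLatin {n : ℕ} (L : Fin n → Equiv.Perm (Fin n)) : Prop :=
  ∀ j : Fin n, Function.Injective (fun i => L i j)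

/-- every row fixes exactly one point and permutes the other points in a single cycle -/
def IsDType {n : ℕ} (L : Fin n → Equiv.Perm (Fin n)) : Prop :=
  ∀ i : Fin n, (∃! x, L i x = x) ∧ ∀ x y, L i x ≠ x → L i y ≠ y → ∃ k : ℕ, ((L i) ^ k) x = y

/-- the product of two arrays, row by row: `(L M)_i (j) = L_i (M_i (j))` -/
def prod {n : ℕ} (L M : Fin n → Equiv.Perm (Fin n)) : Fin n → Equiv.Perm (Fin n) := fun i => L i * M i

/-- `L` is isotopic to the Cayley table of a group: permuting rows, columns and symbols gives the table -/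
def BasedOnGroup {n : ℕ} (L : Fin n → Equiv.Perm (Fin n)) : Prop :=
  ∃ (G : Type) (_ : Group G) (r c s : Fin n ≃ G), ∀ i j, s (L i j) = r i * c j

/-- there is a D-type latin square of order `n` which is not based on a group and whose square is latin -/
def HasSquare (n : ℕ) : Prop :=
  ∃ L : Fin n → Equiv.Perm (Fin n), IsLatin L ∧ IsDType L ∧ ¬ BasedOnGroup L ∧ IsLatin (prod L L)

/-- For every prime power `n ≥ 9` there is a D-type latin square of order `n`, not based on a group, whose square is a latin
square. -/
theorem result : ∀ n : ℕ, IsPrimePow n → 9 ≤ n → HasSquare n := by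
  intro n hn h9
  rcases Nat.even_or_odd n with he | ho
  · obtain ⟨p, k, hp, hk, rfl⟩ := (isPrimePow_nat_iff n).1 hn
    have h2 : 2 ∣ p ^ k := he.two_dvd
    have h3 : 2 ∣ p := Nat.prime_two.dvd_of_dvd_pow h2
    have h4 : 2 = p := (Nat.prime_dvd_prime_iff_eq Nat.prime_two hp).1 h3
    subst h4
    have h5 : 4 ≤ k := by
      by_contra h
      have h6 : k ≤ 3 := by omega
      have h7 : 2 ^ k ≤ 2 ^ 3 := Nat.pow_le_pow_right (by norm_num) h6
      omega
    rcases Nat.lt_or_ge k 6 with h6 | h6
    · have h7 : k = 4 ∨ k = 5 := by omega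
      rcases h7 with rfl | rfl
      · exact Pool.Agent.H90.DE.sixteen
      · exact Pool.Agent.H62.DE32.thirtytwo
    · exact Pool.Agent.H90.PT.Two.big h6
  · exact Pool.Agent.H90.PT.Odd.result n ho hn h9

end Pool.Agent.Results.MP_2f0703_co.AllPrimePowers
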